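import Mathlib
import Pool.Agent.Helper669.KDefs

/-!
# Clubs, stationary sets, diamond and ineffability in the language of forcing

A sentence is the set of the conditions which force it; a name of a subset of a ground model
set `K` is a map `K → Set P`, and `meets (X a)` is the sentence `a ∈ X`.
-/

namespace Pool.Agent.H574Z.Dia

open Cardinal Pool.Agent.Helper669.Forcing Pool.Agent.Helper669.K

section

variable {P : Type} [Preorder P] {K : Type} [LinearOrder K]

/-- `φ iff ψ`. -/
def fiff (φ ψ : Set P) : Set P := fand (fimp φ ψ) (fimp ψ φ)

/-- The named subset `C` of `K` is unbounded, and closed: it contains every `a` which is not the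
least element and such that `C` meets every interval `(b, a)` with `b < a`. -/
def Club (C : K → Set P) : Set P :=
  fand (fall fun a => fex fun b => fand (fground (a < b)) (meets (C b)))
    (fall fun a => fimp
      (fand (fground (∃ b, b < a))
        (fall fun b => fall fun _ : b < a =>
          fex fun c => fand (fground (b < c ∧ c < a)) (meets (C c))))
      (meets (C a)))

/-- The set of all `a` with `φ a` is stationary: it meets every club of the extension. -/
def Stat (φ : K → Set P) : Set P :=
  fall fun C : K → Set P => fimp (Club C) (fex fun a => fand (meets (C a)) (φ a))

/-- `A a ∩ a = X ∩ a`, for a named sequence `A` of subsets of `K` and a named subset `X`. -/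
def Guess (A : K → K → Set P) (X : K → Set P) (a : K) : Set P :=
  fall fun b => fall fun _ : b < a => fiff (meets (A a b)) (meets (X b))

/-- Diamond on the named set `S`: some sequence `A` guesses every `X` at stationarily many
points of `S`. -/
def Diamond (S : K → Set P) : Set P :=
  fex fun A : K → K → Set P => fall fun X : K → Set P =>
    Stat fun a => fand (meets (S a)) (Guess A X a)

/-- `a` is the supremum of a sequence of smaller elements which has no largest value:
`a` has cofinality `ω`. -/
def CofOmega (a : K) : Prop := ∃ f : ℕ → K, (∀ n, f n < a) ∧ ∀ b < a, ∃ n, b < f n

end

/-- `κ` is ineffable in the extension: it is regular, and every sequence `A` guesses some `X` at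
stationarily many points. -/
def Ineffable (P : Type) [Preorder P] (κ : Cardinal.{0}) : Set P :=
  fand (StaysRegular P κ)
    (fall fun A : κ.ord.ToType → κ.ord.ToType → Set P =>
      fex fun X : κ.ord.ToType → Set P => Stat (Guess A X))

/-- `κ` is ineffable in every generic extension by a `κ`-directed closed forcing notion. -/
def IndestructiblyIneffable (κ : Cardinal.{0}) : Prop :=
  ∀ (Q : Type) [Preorder Q], DirClosed κ Q → ∀ q : Q, q ∈ Ineffable Q κ

end Pool.Agent.H574Z.Dia
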