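import Mathlib
import Pool.Agent.H574Z.Dia.Defs

namespace Pool.Agent.H574Z.Dia

open Cardinal Set Pool.Agent.Helper669.Forcing Pool.Agent.Helper669.K

theorem baire {κ : Cardinal.{0}} (hκ : ℵ₀ ≤ κ) {R : Type} [Preorder R] (cl : DirClosed κ R)
    {ι : Type} [LinearOrder ι] [WellFoundedLT ι] (hι : #ι < κ) (D : ι → Set R)
    (down : ∀ i, Down (D i)) (r0 : R)
    (step : ∀ i r, r ≤ r0 → (∀ j < i, r ∈ D j) → ∃ r' ≤ r, r' ∈ D i) :
    ∃ r ≤ r0, ∀ i, r ∈ D i := by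
  classical
  let f : ι → R := (wellFounded_lt (α := ι)).fix fun i g =>
    if h : ∃ r, r ≤ r0 ∧ (∀ j (hj : j < i), r ≤ g j hj) ∧ r ∈ D i then h.choose else r0
  have hf : ∀ i, f i = if h : ∃ r, r ≤ r0 ∧ (∀ j (_ : j < i), r ≤ f j) ∧ r ∈ D i then h.choose
      else r0 := fun i => WellFounded.fix_eq _ _ i
  have lb : ∀ A : Set ι, (∀ i ∈ A, f i ≤ r0 ∧ ∀ j < i, f i ≤ f j) →
      ∃ r, r ≤ r0 ∧ ∀ i ∈ A, r ≤ f i := by
    intro A hA
    suffices H : ∃ q, ∀ a ∈ insert r0 (f '' A), q ≤ a by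
      obtain ⟨q, hq⟩ := H
      exact ⟨q, hq _ (mem_insert _ _), fun i hi => hq _ (Or.inr ⟨i, hi, rfl⟩)⟩
    refine cl (insert r0 (f '' A)) ?_ (insert_nonempty _ _) ?_
    · refine (mk_insert_le).trans_lt (add_lt_of_lt hκ ?_ (one_lt_aleph0.trans_le hκ))
      exact mk_image_le.trans_lt ((mk_set_le _).trans_lt hι)
    · rintro a (rfl | ⟨i, hi, rfl⟩) b (rfl | ⟨j, hj, rfl⟩)
      · exact ⟨_, mem_insert _ _, le_rfl, le_rfl⟩
      · exact ⟨_, Or.inr ⟨j, hj, rfl⟩, (hA j hj).1, le_rfl⟩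
      · exact ⟨_, Or.inr ⟨i, hi, rfl⟩, le_rfl, (hA i hi).1⟩
      · rcases lt_trichotomy i j with h | rfl | h
        · exact ⟨_, Or.inr ⟨j, hj, rfl⟩, (hA j hj).2 i h, le_rfl⟩
        · exact ⟨_, Or.inr ⟨i, hi, rfl⟩, le_rfl, le_rfl⟩
        · exact ⟨_, Or.inr ⟨i, hi, rfl⟩, le_rfl, (hA i hi).2 j h⟩
  have key : ∀ i, f i ≤ r0 ∧ (∀ j < i, f i ≤ f j) ∧ f i ∈ D i := by
    intro i
    induction i using WellFoundedLT.induction with
    | ind i ih =>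
      obtain ⟨r, hr, hr'⟩ := lb (Iio i) fun j hj => ⟨(ih j hj).1, (ih j hj).2.1⟩
      obtain ⟨r', h1, h2⟩ := step i r hr fun j hj => down j _ (ih j hj).2.2 _ (hr' j hj)
      have hex : ∃ r, r ≤ r0 ∧ (∀ j (_ : j < i), r ≤ f j) ∧ r ∈ D i :=
        ⟨r', h1.trans hr, fun j hj => h1.trans (hr' j hj), h2⟩
      have e := hf i
      rw [dif_pos hex] at e
      rw [e]
      exact hex.choose_spec
  obtain ⟨r, hr, hr'⟩ := lb univ fun i _ => ⟨(key i).1, (key i).2.1⟩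
  exact ⟨r, hr, fun i => down i _ (key i).2.2 _ (hr' i trivial)⟩

theorem baire' {κ : Cardinal.{0}} (hκ : ℵ₀ ≤ κ) {R : Type} [Preorder R] (cl : DirClosed κ R)
    {ι : Type} (hι : #ι < κ) (D : ι → Set R)
    (down : ∀ i, Down (D i)) (r0 : R) (step : ∀ i r, r ≤ r0 → ∃ r' ≤ r, r' ∈ D i) :
    ∃ r ≤ r0, ∀ i, r ∈ D i := by
  obtain ⟨_, _⟩ := exists_wellFoundedLT ι
  exact baire hκ cl hι D down r0 (fun i r hr _ => step i r hr)

theorem bdd_of_regular {κ : Cardinal.{0}} (hκ : κ.IsRegular) (A : Set κ.ord.ToType)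
    (hA : #A < κ) : ∃ g, ∀ a ∈ A, a < g := by
  by_contra hcon
  push Not at hcon
  have hunb : IsCofinal A := fun ζ => by
    obtain ⟨β, hβ, h⟩ := hcon ζ
    exact ⟨β, hβ, h⟩
  have hcof := Order.cof_le hunb
  rw [Ordinal.cof_toType, hκ.cof_ord] at hcof
  exact absurd hA (not_lt.2 hcof)

theorem mk_Iic_lt {κ : Cardinal.{0}} (hκ : ℵ₀ ≤ κ) (g : κ.ord.ToType) : #(Iic g) < κ := by
  rw [← Iio_insert]
  exact (mk_insert_le).trans_lt (add_lt_of_lt hκ (by simpa using mk_Iio_lt g (by simp)) (one_lt_aleph0.trans_le hκ))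

theorem staysRegular_of_dirClosed {κ : Cardinal.{0}} (hκ : κ.IsRegular) {P : Type} [Preorder P]
    (cl : DirClosed κ P) (p : P) : p ∈ StaysRegular P κ := by
  intro ν hν R
  refine mem_fimp.2 fun q _ hq => ?_
  obtain ⟨r, hr, h⟩ := baire' hκ.aleph0_le cl (ι := ν.out) (by rwa [mk_out])
    (fun x => {r | ∃ y, r ∈ meets (R x y)})
    (fun x r hr r' hr' => by
      obtain ⟨y, hy⟩ := hr
      exact ⟨y, down_meets _ _ hy _ hr'⟩) q
    (fun x r hr => IsFun.total (down_IsFun R _ hq _ hr) x)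
  choose y hy using h
  obtain ⟨g, hg⟩ := bdd_of_regular hκ (range y) (mk_range_le.trans_lt (by rwa [mk_out]))
  refine ⟨r, hr, mem_fex.2 fun r' hr' => ⟨r', le_rfl, g, fun x y' => mem_fimp.2 fun r'' h1 h2 =>
    ⟨r'', le_rfl, ?_⟩⟩⟩
  have := IsFun.unique (down_IsFun R _ hq r'' (h1.trans (hr'.trans hr))) h2
    (down_meets _ _ (hy x) _ (h1.trans hr'))
  exact this ▸ hg _ ⟨x, rfl⟩

section

variable {P : Type} [Preorder P] {K : Type} [LinearOrder K]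

theorem down_Club (C : K → Set P) : Down (Club C) :=
  down_fand (down_fall fun _ => down_fex _) (down_fall fun _ => down_fimp _ _)

theorem down_Stat (φ : K → Set P) : Down (Stat φ) := down_fall fun _ => down_fimp _ _

theorem down_Guess (A : K → K → Set P) (X : K → Set P) (a : K) : Down (Guess A X a) :=
  down_fall fun _ => down_fall fun _ => down_fand (down_fimp _ _) (down_fimp _ _)

theorem meets_of_dense {N : Set P} {p : P} (h : ∀ q ≤ p, ∃ r ≤ q, r ∈ meets N) : p ∈ meets N :=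
  fun q hq => by
    obtain ⟨r, hr, h'⟩ := h q hq
    obtain ⟨r', h1, h2⟩ := h' r le_rfl
    exact ⟨r', h1.trans hr, h2⟩

theorem Club.next {C : K → Set P} {p : P} (h : p ∈ Club C) (a : K) :
    ∃ q ≤ p, ∃ b, a < b ∧ q ∈ meets (C b) := by
  obtain ⟨q, hq, b, h1, h2⟩ := mem_fex.1 (h.1 a) p le_rfl
  exact ⟨q, hq, b, h1, h2⟩

theorem Club.closed {C : K → Set P} {p : P} (h : p ∈ Club C) {a : K} (h0 : ∃ b, b < a)
    (h1 : ∀ b < a, ∃ c, b < c ∧ c < a ∧ p ∈ meets (C c)) : p ∈ meets (C a) := by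
  refine meets_of_dense fun q hq => mem_fimp.1 (h.2 a) q hq ⟨h0, fun b hb => ?_⟩
  obtain ⟨c, h2, h3, h4⟩ := h1 b hb
  exact mem_fex.2 fun r hr => ⟨r, le_rfl, c, ⟨h2, h3⟩, down_meets _ _ h4 _ (hr.trans hq)⟩

end

theorem hull {κ : Cardinal.{0}} (hκ : κ.IsRegular) {I K : Type} [LinearOrder K] [WellFoundedLT K]
    (hI : ∀ g : K, #(Iic g) < κ) (f : Set I → K → Set I)
    (hf : ∀ Z : Set I, #Z < κ → ∀ k, #(f Z k) < κ) :
    ∃ W : K → Set I, (∀ i, #(W i) < κ) ∧ (∀ i j, j < i → W j ⊆ W i) ∧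
      ∀ i j k, j < i → k < i → f (W j) k ⊆ W i := by
  let W : K → Set I := (wellFounded_lt (α := K)).fix fun i g =>
    ⋃ j : Iio i, (g j.1 j.2 ∪ ⋃ k : Iio i, f (g j.1 j.2) k.1)
  have hW : ∀ i, W i = ⋃ j : Iio i, (W j.1 ∪ ⋃ k : Iio i, f (W j.1) k.1) :=
    fun i => WellFounded.fix_eq _ _ i
  refine ⟨W, fun i => ?_, fun i j hj => ?_, fun i j k hj hk => ?_⟩
  · induction i using WellFoundedLT.induction with
    | ind i ih =>
      have h0 : #(Iio i) < κ := (mk_le_mk_of_subset Iio_subset_Iic_self).trans_lt (hI i)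
      rw [hW]
      refine (card_iUnion_lt_iff_forall_of_isRegular hκ h0).2 fun j => ?_
      refine (mk_union_le _ _).trans_lt (add_lt_of_lt hκ.aleph0_le (ih _ j.2) ?_)
      exact (card_iUnion_lt_iff_forall_of_isRegular hκ h0).2 fun k => hf _ (ih _ j.2) _
  · rw [hW i]
    exact fun x hx => mem_iUnion.2 ⟨⟨j, hj⟩, Or.inl hx⟩
  · rw [hW i]
    exact fun x hx => mem_iUnion.2 ⟨⟨j, hj⟩, Or.inr (mem_iUnion.2 ⟨⟨k, hk⟩, hx⟩)⟩

end Pool.Agent.H574Z.Dia
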