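import Mathlib
import Pool.Agent.H574Z.Dia.Defs

namespace Pool.Agent.H574Z.Dia

open Cardinal Set

structure Raw (I K : Type) where
  h : K
  s : Set K
  u : Set I
  a : I → Set K
  c : I → Set K

section

variable {I K : Type} [LinearOrder K]

def Agree (g : K) (x y : Set K) : Prop := ∀ b ≤ g, (b ∈ x ↔ b ∈ y)

theorem Agree.rfl' (g : K) (x : Set K) : Agree g x x := fun _ _ => Iff.rfl

theorem Agree.trans' {g g' : K} {x y z : Set K} (h : Agree g' x y) (hg : g ≤ g')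
    (h' : Agree g y z) : Agree g x z := fun b hb => (h b (hb.trans hg)).trans (h' b hb)

instance : Preorder (Raw I K) where
  le q p := p.h ≤ q.h ∧ Agree p.h q.s p.s ∧
    ∀ i ∈ p.u, i ∈ q.u ∧ Agree p.h (q.a i) (p.a i) ∧ Agree p.h (q.c i) (p.c i)
  le_refl p := ⟨le_rfl, Agree.rfl' _ _, fun _ hi => ⟨hi, Agree.rfl' _ _, Agree.rfl' _ _⟩⟩
  le_trans r q p h h' := ⟨h'.1.trans h.1, h.2.1.trans' h'.1 h'.2.1, fun i hi =>
    ⟨(h.2.2 i (h'.2.2 i hi).1).1,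
      (h.2.2 i (h'.2.2 i hi).1).2.1.trans' h'.1 (h'.2.2 i hi).2.1,
      (h.2.2 i (h'.2.2 i hi).1).2.2.trans' h'.1 (h'.2.2 i hi).2.2⟩⟩

theorem Raw.le_def {q p : Raw I K} : q ≤ p ↔ p.h ≤ q.h ∧ Agree p.h q.s p.s ∧
    ∀ i ∈ p.u, i ∈ q.u ∧ Agree p.h (q.a i) (p.a i) ∧ Agree p.h (q.c i) (p.c i) := Iff.rfl

def Raw.res (p : Raw I K) (J : Set I) : Raw I K := ⟨p.h, p.s, p.u ∩ J, p.a, p.c⟩

theorem Raw.le_res (p : Raw I K) (J : Set I) : p ≤ p.res J :=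
  ⟨le_rfl, Agree.rfl' _ _, fun _ hi => ⟨hi.1, Agree.rfl' _ _, Agree.rfl' _ _⟩⟩

theorem Raw.res_mono {q p : Raw I K} (h : q ≤ p) (J : Set I) : q.res J ≤ p.res J :=
  ⟨h.1, h.2.1, fun i hi => ⟨⟨(h.2.2 i hi.1).1, hi.2⟩, (h.2.2 i hi.1).2⟩⟩

theorem Raw.res_le {q r : Raw I K} {J : Set I} (h : q ≤ r) (hr : r.u ⊆ J) : q.res J ≤ r :=
  ⟨h.1, h.2.1, fun i hi => ⟨⟨(h.2.2 i hi).1, hr hi⟩, (h.2.2 i hi).2⟩⟩

theorem Raw.res_sub {q p : Raw I K} {J J' : Set I} (h : q.res J ≤ p.res J) (hJ : J' ⊆ J) :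
    q.res J' ≤ p.res J' :=
  ⟨h.1, h.2.1, fun i hi => ⟨⟨(h.2.2 i ⟨hi.1, hJ hi.2⟩).1.1, hi.2⟩, (h.2.2 i ⟨hi.1, hJ hi.2⟩).2⟩⟩

theorem Raw.res_of_le_res {q p : Raw I K} {J : Set I} (h : q ≤ p.res J) :
    q.res J ≤ p.res J := Raw.res_le h fun _ hi => hi.2

def Acc' (C : Set K) (d : K) : Prop := (∃ b, b < d) ∧ ∀ b < d, ∃ e ∈ C, b < e ∧ e < d

def Base (κ : Cardinal.{0}) (p : Raw I K) : Prop :=
  #p.u < κ ∧ (∀ b ≤ p.h, b ∈ p.s → CofOmega b) ∧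
    ∀ i ∈ p.u, ∀ d ≤ p.h, Acc' (p.c i) d → d ∈ p.c i

variable [LinearOrder I] [WellFoundedLT I]

def Req (κ : Cardinal.{0}) (N : I → K → K → Set (Raw I K)) : I → Raw I K → Prop :=
  (wellFounded_lt (α := I)).fix fun i R p => ∀ d ≤ p.h, d ∈ p.c i → d ∈ p.s → ∃ b < d,
    (b ∉ p.a i ∧ ∃ r ∈ N i d b, p.res (Iio i) ≤ r) ∨
    (b ∈ p.a i ∧ ∀ q ≤ p.res (Iio i), Base κ q → q.u ⊆ Iio i →
      (∀ j (hj : j < i), j ∈ q.u → R j hj q) → ¬ ∃ r ∈ N i d b, q ≤ r)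

variable (κ : Cardinal.{0}) (N : I → K → K → Set (Raw I K))

def Cond (p : Raw I K) : Prop := Base κ p ∧ ∀ i ∈ p.u, Req κ N i p

def Pos (i : I) (d b : K) (p : Raw I K) : Prop := ∃ r ∈ N i d b, p.res (Iio i) ≤ r

def Neg (i : I) (d b : K) (p : Raw I K) : Prop :=
  ∀ q ≤ p.res (Iio i), Cond κ N q → q.u ⊆ Iio i → ¬ ∃ r ∈ N i d b, q ≤ r

def ReqAt (i : I) (p : Raw I K) (d : K) : Prop :=
  ∃ b < d, (b ∉ p.a i ∧ Pos N i d b p) ∨ (b ∈ p.a i ∧ Neg κ N i d b p)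

variable {κ N}

theorem req_iff {i : I} {p : Raw I K} :
    Req κ N i p ↔ ∀ d ≤ p.h, d ∈ p.c i → d ∈ p.s → ReqAt κ N i p d := by
  unfold Req
  rw [WellFounded.fix_eq]
  refine forall_congr' fun d => forall_congr' fun _ => forall_congr' fun _ =>
    forall_congr' fun _ => exists_congr fun b => and_congr Iff.rfl
      (or_congr Iff.rfl (and_congr Iff.rfl ?_))
  constructor
  · intro h q hq hc hu
    exact h q hq hc.1 hu fun j _ hj => hc.2 j hj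
  · intro h q hq hb hu hr
    exact h q hq ⟨hb, fun j hj => hr j (hu hj) hj⟩ hu

omit [WellFoundedLT I] in
theorem Pos.mono {i : I} {d b : K} {p q : Raw I K} (h : Pos N i d b p)
    (hq : q.res (Iio i) ≤ p.res (Iio i)) : Pos N i d b q := by
  obtain ⟨r, hr, hle⟩ := h
  exact ⟨r, hr, hq.trans hle⟩

theorem Neg.mono {i : I} {d b : K} {p q : Raw I K} (h : Neg κ N i d b p)
    (hq : q.res (Iio i) ≤ p.res (Iio i)) : Neg κ N i d b q :=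
  fun r hr => h r (hr.trans hq)

theorem cond_of {q : Raw I K} (hu : #q.u < κ) (hs : ∀ b ≤ q.h, b ∈ q.s → CofOmega b)
    (H : ∀ i ∈ q.u, ∀ d ≤ q.h,
      (∃ p, Cond κ N p ∧ i ∈ p.u ∧ d ≤ p.h ∧ q.res (Iic i) ≤ p.res (Iic i)) ∨
      ((Acc' (q.c i) d → d ∈ q.c i) ∧ (d ∈ q.c i → d ∈ q.s → ReqAt κ N i q d))) :
    Cond κ N q := by
  refine ⟨⟨hu, hs, fun i hi d hd hacc => ?_⟩, fun i hi => req_iff.2 fun d hd hc hds => ?_⟩
  · rcases H i hi d hd with ⟨p, hp, hip, hdp, hle⟩ | h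
    · have hag := (hle.2.2 i ⟨hip, le_rfl⟩).2.2
      refine (hag d hdp).2 (hp.1.2.2 i hip d hdp ⟨hacc.1, fun b hb => ?_⟩)
      obtain ⟨e, he, h1, h2⟩ := hacc.2 b hb
      exact ⟨e, (hag e (h2.le.trans hdp)).1 he, h1, h2⟩
    · exact h.1 hacc
  · rcases H i hi d hd with ⟨p, hp, hip, hdp, hle⟩ | h
    · have hag := (hle.2.2 i ⟨hip, le_rfl⟩).2
      obtain ⟨b, hb, h⟩ := req_iff.1 (hp.2 i hip) d hdp ((hag.2 d hdp).1 hc)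
        ((hle.2.1 d hdp).1 hds)
      have hle' := Raw.res_sub hle (Iio_subset_Iic_self (a := i))
      refine ⟨b, hb, ?_⟩
      rcases h with h | h
      · exact Or.inl ⟨fun hx => h.1 ((hag.1 b (hb.le.trans hdp)).1 hx), h.2.mono hle'⟩
      · exact Or.inr ⟨(hag.1 b (hb.le.trans hdp)).2 h.1, h.2.mono hle'⟩
    · exact h.2 hc hds

theorem Cond.res {p : Raw I K} (hp : Cond κ N p) {J : Set I} (hJ : IsLowerSet J) :
    Cond κ N (p.res J) := by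
  refine cond_of ((mk_le_mk_of_subset inter_subset_left).trans_lt hp.1.1) hp.1.2.1
    fun i hi d hd => Or.inl ⟨p, hp, hi.1, hd, le_rfl, Agree.rfl' _ _, fun j hj =>
      ⟨⟨⟨hj.1, hJ hj.2 hi.2⟩, hj.2⟩, Agree.rfl' _ _, Agree.rfl' _ _⟩⟩

/-! ### limits -/

def lim {ι : Type} (F : ι → Raw I K) (g : K) : Raw I K where
  h := g
  s := {b | ∃ x, b ≤ (F x).h ∧ b ∈ (F x).s}
  u := ⋃ x, (F x).u
  a := fun i => {b | ∃ x, i ∈ (F x).u ∧ b ≤ (F x).h ∧ b ∈ (F x).a i}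
  c := fun i => {b | (∃ x, i ∈ (F x).u ∧ b ≤ (F x).h ∧ b ∈ (F x).c i) ∨ ∀ x, (F x).h < b}

omit [LinearOrder I] [WellFoundedLT I] in
theorem lim_le {ι : Type} {F : ι → Raw I K} {g : K} (hg : ∀ x, (F x).h ≤ g)
    (hd : ∀ x y, ∃ z, F z ≤ F x ∧ F z ≤ F y) (x : ι) : lim F g ≤ F x := by
  refine ⟨hg x, fun b hb => ⟨?_, fun h => ⟨x, hb, h⟩⟩, fun i hi => ⟨mem_iUnion.2 ⟨x, hi⟩,
    fun b hb => ⟨?_, fun h => ⟨x, hi, hb, h⟩⟩, fun b hb => ⟨?_, fun h => Or.inl ⟨x, hi, hb, h⟩⟩⟩⟩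
  · rintro ⟨y, hy, h⟩
    obtain ⟨z, h1, h2⟩ := hd x y
    exact (h1.2.1 b hb).1 ((h2.2.1 b hy).2 h)
  · rintro ⟨y, hiy, hy, h⟩
    obtain ⟨z, h1, h2⟩ := hd x y
    exact ((h1.2.2 i hi).2.1 b hb).1 (((h2.2.2 i hiy).2.1 b hy).2 h)
  · rintro (⟨y, hiy, hy, h⟩ | h)
    · obtain ⟨z, h1, h2⟩ := hd x y
      exact ((h1.2.2 i hi).2.2 b hb).1 (((h2.2.2 i hiy).2.2 b hy).2 h)
    · exact absurd (h x) (not_lt.2 hb)

theorem lim_cond (hκ : κ.IsRegular) {ι : Type} {F : ι → Raw I K} {g : K} (hι : #ι < κ)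
    (hg : ∀ x, (F x).h ≤ g) (hd : ∀ x y, ∃ z, F z ≤ F x ∧ F z ≤ F y)
    (hc : ∀ x, Cond κ N (F x)) : Cond κ N (lim F g) := by
  refine cond_of ?_ ?_ fun i hi d _ => ?_
  · exact (card_iUnion_lt_iff_forall_of_isRegular hκ hι).2 fun x => (hc x).1.1
  · rintro b _ ⟨x, hx, h⟩
    exact (hc x).1.2.1 b hx h
  · by_cases h : ∀ x, (F x).h < d
    · refine Or.inr ⟨fun _ => Or.inr h, fun _ hs => ?_⟩
      obtain ⟨x, hx, _⟩ := hs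
      exact absurd (h x) (not_lt.2 hx)
    · push Not at h
      obtain ⟨x, hx⟩ := h
      obtain ⟨y, hy⟩ := mem_iUnion.1 hi
      obtain ⟨z, h1, h2⟩ := hd x y
      exact Or.inl ⟨F z, hc z, (h2.2.2 i hy).1, hx.trans h1.1,
        Raw.res_mono (lim_le hg hd z) _⟩

omit [LinearOrder I] [WellFoundedLT I] in
theorem lim_res_le {ι : Type} {F F' : ι → Raw I K} {g : K} {J : Set I}
    (h : ∀ x, (F x).res J ≤ (F' x).res J) (h' : ∀ x, (F' x).res J ≤ (F x).res J) :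
    (lim F g).res J ≤ (lim F' g).res J := by
  have e : ∀ x, (F x).h = (F' x).h := fun x => le_antisymm (h' x).1 (h x).1
  refine ⟨le_rfl, fun b _ => ⟨?_, ?_⟩, fun i hi => ⟨⟨?_, hi.2⟩, fun b _ => ⟨?_, ?_⟩,
    fun b _ => ⟨?_, ?_⟩⟩⟩
  · rintro ⟨x, hx, hb⟩
    exact ⟨x, e x ▸ hx, ((h' x).2.1 b hx).2 hb⟩
  · rintro ⟨x, hx, hb⟩
    exact ⟨x, e x ▸ hx, ((h x).2.1 b hx).2 hb⟩
  · obtain ⟨x, hx⟩ := mem_iUnion.1 hi.1
    exact mem_iUnion.2 ⟨x, ((h x).2.2 i ⟨hx, hi.2⟩).1.1⟩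
  · rintro ⟨x, hix, hx, hb⟩
    have := (h' x).2.2 i ⟨hix, hi.2⟩
    exact ⟨x, this.1.1, e x ▸ hx, (this.2.1 b hx).2 hb⟩
  · rintro ⟨x, hix, hx, hb⟩
    have := (h x).2.2 i ⟨hix, hi.2⟩
    exact ⟨x, this.1.1, e x ▸ hx, (this.2.1 b hx).2 hb⟩
  · rintro (⟨x, hix, hx, hb⟩ | hb)
    · have := (h' x).2.2 i ⟨hix, hi.2⟩
      exact Or.inl ⟨x, this.1.1, e x ▸ hx, (this.2.2 b hx).2 hb⟩
    · exact Or.inr fun x => e x ▸ hb x
  · rintro (⟨x, hix, hx, hb⟩ | hb)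
    · have := (h x).2.2 i ⟨hix, hi.2⟩
      exact Or.inl ⟨x, this.1.1, e x ▸ hx, (this.2.2 b hx).2 hb⟩
    · exact Or.inr fun x => e x ▸ hb x

/-! ### amalgamation -/

def glue (q p : Raw I K) (J : Set I) : Raw I K where
  h := q.h
  s := q.s
  u := (q.u ∩ J) ∪ (p.u \ J)
  a := fun i => {b | (i ∈ J ∧ b ∈ q.a i) ∨ (i ∉ J ∧ b ≤ p.h ∧ b ∈ p.a i)}
  c := fun i => {b | (i ∈ J ∧ b ∈ q.c i) ∨ (i ∉ J ∧ b ≤ p.h ∧ b ∈ p.c i)}

omit [LinearOrder I] [WellFoundedLT I] in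
theorem glue_le_left (q p : Raw I K) (J : Set I) : glue q p J ≤ q.res J :=
  ⟨le_rfl, Agree.rfl' _ _, fun _ hi => ⟨Or.inl hi,
    fun _ _ => ⟨fun h => h.elim (fun h => h.2) fun h => absurd hi.2 h.1, fun h => Or.inl ⟨hi.2, h⟩⟩,
    fun _ _ => ⟨fun h => h.elim (fun h => h.2) fun h => absurd hi.2 h.1,
      fun h => Or.inl ⟨hi.2, h⟩⟩⟩⟩

omit [LinearOrder I] [WellFoundedLT I] in
theorem glue_le_right {q p : Raw I K} {J : Set I} (h : q.res J ≤ p.res J) : glue q p J ≤ p := by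
  refine ⟨h.1, h.2.1, fun i hi => ?_⟩
  by_cases hJ : i ∈ J
  · have := h.2.2 i ⟨hi, hJ⟩
    exact ⟨Or.inl this.1, fun b hb => ⟨fun h => h.elim (fun h => (this.2.1 b hb).1 h.2)
      fun h => absurd hJ h.1, fun h => Or.inl ⟨hJ, (this.2.1 b hb).2 h⟩⟩,
      fun b hb => ⟨fun h => h.elim (fun h => (this.2.2 b hb).1 h.2)
      fun h => absurd hJ h.1, fun h => Or.inl ⟨hJ, (this.2.2 b hb).2 h⟩⟩⟩
  · exact ⟨Or.inr ⟨hi, hJ⟩, fun b hb => ⟨fun h => h.elim (fun h => absurd h.1 hJ)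
      fun h => h.2.2, fun h => Or.inr ⟨hJ, hb, h⟩⟩,
      fun b hb => ⟨fun h => h.elim (fun h => absurd h.1 hJ)
      fun h => h.2.2, fun h => Or.inr ⟨hJ, hb, h⟩⟩⟩

theorem glue_cond (hκ : ℵ₀ ≤ κ) {q p : Raw I K} {J : Set I} (h : q.res J ≤ p.res J)
    (hq : Cond κ N q) (hp : Cond κ N p) (hJ : ∀ i ∈ J, ∀ j ∈ q.u, j ≤ i → j ∈ J) :
    Cond κ N (glue q p J) := by
  refine cond_of ?_ hq.1.2.1 fun i hi d hd => ?_
  · exact (mk_union_le _ _).trans_lt (add_lt_of_lt hκ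
      ((mk_le_mk_of_subset inter_subset_left).trans_lt hq.1.1)
      ((mk_le_mk_of_subset sdiff_subset).trans_lt hp.1.1))
  · rcases hi with hi | hi
    · refine Or.inl ⟨q, hq, hi.1, hd, ?_⟩
      have h1 := glue_le_left q p J
      exact ⟨h1.1, h1.2.1, fun j hj =>
        ⟨⟨(h1.2.2 j ⟨hj.1, hJ i hi.2 j hj.1 hj.2⟩).1, hj.2⟩,
          (h1.2.2 j ⟨hj.1, hJ i hi.2 j hj.1 hj.2⟩).2⟩⟩
    · by_cases hdp : d ≤ p.h
      · exact Or.inl ⟨p, hp, hi.1, hdp, Raw.res_mono (glue_le_right h) _⟩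
      · refine Or.inr ⟨fun hacc => ?_, fun hc => ?_⟩
        · obtain ⟨e, he, h1, _⟩ := hacc.2 p.h (not_le.1 hdp)
          rcases he with he | he
          · exact absurd he.1 hi.2
          · exact absurd he.2.1 (not_le.2 h1)
        · rcases hc with hc | hc
          · exact absurd hc.1 hi.2
          · exact absurd hc.2.1 hdp

/-! ### padding -/

def pad (p : Raw I K) (g : K) (Z : Set I) (t : I → Bool) : Raw I K where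
  h := g
  s := p.s ∩ Iic p.h
  u := p.u ∪ Z
  a := fun i => {b | (i ∈ p.u ∧ b ≤ p.h ∧ b ∈ p.a i) ∨ (b = g ∧ t i = true)}
  c := fun i => {b | i ∈ p.u ∧ b ≤ p.h ∧ b ∈ p.c i}

omit [LinearOrder I] [WellFoundedLT I] in
theorem pad_le {p : Raw I K} {g : K} (hg : p.h < g) (Z : Set I) (t : I → Bool) :
    pad p g Z t ≤ p :=
  ⟨hg.le, fun _ hb => ⟨fun h => h.1, fun h => ⟨h, hb⟩⟩, fun _ hi => ⟨Or.inl hi,
    fun _ hb => ⟨fun h => h.elim (fun h => h.2.2) fun h => absurd hb (h.1 ▸ not_le.2 hg),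
      fun h => Or.inl ⟨hi, hb, h⟩⟩, fun _ hb => ⟨fun h => h.2.2, fun h => ⟨hi, hb, h⟩⟩⟩⟩

theorem pad_cond (hκ : ℵ₀ ≤ κ) {p : Raw I K} {g : K} (hg : p.h < g) {Z : Set I} (hZ : #Z < κ)
    (t : I → Bool) (hp : Cond κ N p) : Cond κ N (pad p g Z t) := by
  refine cond_of ((mk_union_le _ _).trans_lt (add_lt_of_lt hκ hp.1.1 hZ))
    (fun b _ hb => hp.1.2.1 b hb.2 hb.1) fun i _ d _ => ?_
  by_cases h : i ∈ p.u ∧ d ≤ p.h
  · exact Or.inl ⟨p, hp, h.1, h.2, Raw.res_mono (pad_le hg Z t) _⟩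
  · refine Or.inr ⟨fun hacc => ?_, fun hc => absurd ⟨hc.1, hc.2.1⟩ h⟩
    obtain ⟨b, hb⟩ := hacc.1
    obtain ⟨e, he, _, _⟩ := hacc.2 b hb
    have hd : p.h < d := not_le.1 fun hd => h ⟨he.1, hd⟩
    obtain ⟨e', he', h1, _⟩ := hacc.2 p.h hd
    exact absurd he'.2.1 (not_le.2 h1)

omit [LinearOrder I] [WellFoundedLT I] in
theorem pad_mem_a {p : Raw I K} {g : K} (hg : p.h < g) (Z : Set I) (t : I → Bool) (i : I) :
    g ∈ (pad p g Z t).a i ↔ t i = true :=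
  ⟨fun h => h.elim (fun h => absurd h.2.1 (not_le.2 hg)) fun h => h.2, fun h => Or.inr ⟨rfl, h⟩⟩

end

end Pool.Agent.H574Z.Dia
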