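import Mathlib
import Pool.Agent.H574Z.Dia.Raw
import Pool.Agent.H574Z.Dia.Gen

namespace Pool.Agent.H574Z.Dia

open Cardinal Set Pool.Agent.Helper669.Forcing Pool.Agent.Helper669.K

structure Good (κ : Cardinal.{0}) (K : Type) [LinearOrder K] : Prop where
  inacc : κ.IsInaccessible
  bdd : ∀ A : Set K, #A < κ → ∃ g, ∀ a ∈ A, a < g
  seg : ∀ g : K, #(Iic g) < κ
  card : #K ≤ κ

section

variable {I K : Type} [LinearOrder K] [LinearOrder I] [WellFoundedLT I]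
  {κ : Cardinal.{0}} {N : I → K → K → Set (Raw I K)}

theorem Good.reg (G : Good κ K) : κ.IsRegular := G.inacc.isRegular

theorem Good.succ (G : Good κ K) (a : K) : ∃ b, a < b := by
  obtain ⟨g, hg⟩ := G.bdd {a} (by simpa using one_lt_aleph0.trans_le G.reg.aleph0_le)
  exact ⟨g, hg a rfl⟩

abbrev PP (κ : Cardinal.{0}) (N : I → K → K → Set (Raw I K)) : Type :=
  {p : Raw I K // Cond κ N p}

theorem dirClosed_PP (G : Good κ K) : DirClosed κ (PP κ N) := by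
  intro D hD _ hd
  obtain ⟨g, hg⟩ := G.bdd (range fun x : D => x.1.1.h) (mk_range_le.trans_lt hD)
  have hg' : ∀ x : D, x.1.1.h ≤ g := fun x => (hg _ ⟨x, rfl⟩).le
  have hd' : ∀ x y : D, ∃ z : D, z.1.1 ≤ x.1.1 ∧ z.1.1 ≤ y.1.1 := fun x y => by
    obtain ⟨z, hz, h⟩ := hd x.1 x.2 y.1 y.2
    exact ⟨⟨z, hz⟩, h⟩
  exact ⟨⟨lim (fun x : D => x.1.1) g, lim_cond G.reg hD hg' hd' fun x => x.1.2⟩,
    fun a ha => lim_le (F := fun x : D => x.1.1) hg' hd' ⟨a, ha⟩⟩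

def Coh (Z : Set I) (F : (I → Bool) → Raw I K) : Prop :=
  ∀ t t' (J : Set I), IsLowerSet J → (∀ j ∈ Z, j ∈ J → t j = t' j) → (F t).res J ≤ (F t').res J

omit [WellFoundedLT I] in
theorem Coh.le {Z : Set I} {F : (I → Bool) → Raw I K} (h : Coh Z F) {t t' : I → Bool}
    (ht : ∀ j ∈ Z, t j = t' j) : F t ≤ F t' :=
  (Raw.le_res _ univ).trans ((h t t' univ isLowerSet_univ fun j hj _ => ht j hj).trans
    (Raw.res_le le_rfl (subset_univ _)))

omit [WellFoundedLT I] in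
theorem Coh.h_eq {Z : Set I} {F : (I → Bool) → Raw I K} (h : Coh Z F) (t t' : I → Bool) :
    (F t).h = (F t').h :=
  le_antisymm (h t' t ∅ isLowerSet_empty fun _ _ hj => hj.elim).1
    (h t t' ∅ isLowerSet_empty fun _ _ hj => hj.elim).1

structure Fam (κ : Cardinal.{0}) (N : I → K → K → Set (Raw I K)) (Z : Set I) where
  F : (I → Bool) → Raw I K
  cond : ∀ t, Cond κ N (F t)
  coh : Coh Z F

instance (Z : Set I) : Preorder (Fam κ N Z) := Preorder.lift Fam.F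

theorem Fam.le_def {Z : Set I} {x y : Fam κ N Z} : x ≤ y ↔ ∀ t, x.F t ≤ y.F t := Iff.rfl

theorem dirClosed_Fam (G : Good κ K) (Z : Set I) : DirClosed κ (Fam κ N Z) := by
  intro D hD _ hd
  obtain ⟨g, hg⟩ := G.bdd (range fun x : D => (x.1.F fun _ => false).h) (mk_range_le.trans_lt hD)
  have hg' : ∀ t, ∀ x : D, (x.1.F t).h ≤ g := fun t x =>
    (x.1.coh.h_eq t _).trans_le (hg _ ⟨x, rfl⟩).le
  have hd' : ∀ t, ∀ x y : D, ∃ z : D, z.1.F t ≤ x.1.F t ∧ z.1.F t ≤ y.1.F t := fun t x y => by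
    obtain ⟨z, hz, h⟩ := hd x.1 x.2 y.1 y.2
    exact ⟨⟨z, hz⟩, h.1 t, h.2 t⟩
  refine ⟨⟨fun t => lim (fun x : D => x.1.F t) g,
    fun t => lim_cond G.reg hD (hg' t) (hd' t) fun x => x.1.cond t, fun t t' J hJ ht =>
      lim_res_le (fun x => x.1.coh t t' J hJ ht)
        (fun x => x.1.coh t' t J hJ fun j h1 h2 => (ht j h1 h2).symm)⟩, fun a ha t => ?_⟩
  exact lim_le (F := fun x : D => x.1.F t) (hg' t) (hd' t) ⟨a, ha⟩

theorem Fam.dense (hκ : ℵ₀ ≤ κ) {Z : Set I} (x : Fam κ N Z) (t0 : I → Bool) {q : Raw I K}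
    (hq : Cond κ N q) (hle : q ≤ x.F t0) : ∃ y ≤ x, y.F t0 ≤ q := by
  let J : (I → Bool) → Set I := fun t => {i | ∀ j ∈ Z, j ≤ i → t j = t0 j}
  have hJ : ∀ t, IsLowerSet (J t) := fun t i i' hi h j hj hji => h j hj (hji.trans hi)
  have h1 : ∀ t, q.res (J t) ≤ (x.F t).res (J t) := fun t =>
    (Raw.res_mono hle _).trans (x.coh t0 t _ (hJ t) fun j hj h => (h j hj le_rfl).symm)
  refine ⟨⟨fun t => glue q (x.F t) (J t), fun t => glue_cond hκ (h1 t) hq (x.cond t)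
    fun i hi j _ hji => hJ t hji hi, fun t t' L hL ht => ?_⟩, fun t => glue_le_right (h1 t), ?_⟩
  · have hJJ : ∀ i ∈ L, (i ∈ J t ↔ i ∈ J t') := fun i hi =>
      ⟨fun h j hj hji => (ht j hj (hL hji hi)).symm.trans (h j hj hji),
        fun h j hj hji => (ht j hj (hL hji hi)).trans (h j hj hji)⟩
    have hc := x.coh t t' L hL ht
    have e := x.coh.h_eq t t'
    refine ⟨le_rfl, Agree.rfl' _ _, fun i hi => ?_⟩
    have hiL : i ∈ L := hi.2
    by_cases hiJ : i ∈ J t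
    · have hiJ' := (hJJ i hiL).1 hiJ
      refine ⟨⟨Or.inl ⟨hi.1.elim (fun h => h.1) fun h => absurd hiJ' h.2, hiJ⟩, hiL⟩,
        fun b _ => ?_, fun b _ => ?_⟩ <;> simp [glue, Raw.res, hiJ, hiJ']
    · have hiJ' : i ∉ J t' := fun h => hiJ ((hJJ i hiL).2 h)
      have hiu : i ∈ (x.F t').u := hi.1.elim (fun h => absurd h.2 hiJ') fun h => h.1
      have := hc.2.2 i ⟨hiu, hiL⟩
      refine ⟨⟨Or.inr ⟨this.1.1, hiJ⟩, hiL⟩, fun b _ => ?_, fun b _ => ?_⟩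
      · simp only [glue, Raw.res, mem_ofPred_eq, hiJ, hiJ', false_and, not_false_eq_true,
          true_and, false_or, e]
        exact and_congr_right fun hb => this.2.1 b hb
      · simp only [glue, Raw.res, mem_ofPred_eq, hiJ, hiJ', false_and, not_false_eq_true,
          true_and, false_or, e]
        exact and_congr_right fun hb => this.2.2 b hb
  · exact (glue_le_left _ _ _).trans (Raw.res_le le_rfl fun i _ j _ _ => rfl)

omit [WellFoundedLT I] in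
theorem pad_coh {Z Z' : Set I} (hZ : Z ⊆ Z') {F : (I → Bool) → Raw I K} (hF : Coh Z F)
    (hu : ∀ t, (F t).u ⊆ Z') (g : K) : Coh Z' fun t => pad (F t) g Z' t := by
  intro t t' L hL ht
  have hc := hF t t' L hL fun j hj => ht j (hZ hj)
  have hc' := hF t' t L hL fun j hj h => (ht j (hZ hj) h).symm
  have e := hF.h_eq t t'
  refine ⟨le_rfl, fun b _ => ⟨fun h => ?_, fun h => ?_⟩, fun i hi => ?_⟩
  · exact ⟨(hc'.2.1 b h.2).2 h.1, e ▸ h.2⟩
  · exact ⟨(hc.2.1 b h.2).2 h.1, e ▸ h.2⟩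
  · have hiZ : i ∈ Z' := hi.1.elim (fun h => hu t' h) id
    have et := ht i hiZ hi.2
    refine ⟨⟨Or.inr hiZ, hi.2⟩, fun b _ => ⟨?_, ?_⟩, fun b _ => ⟨?_, ?_⟩⟩
    · rintro (h | h)
      · have := hc'.2.2 i ⟨h.1, hi.2⟩
        exact Or.inl ⟨this.1.1, e ▸ h.2.1, (this.2.1 b h.2.1).2 h.2.2⟩
      · exact Or.inr ⟨h.1, et ▸ h.2⟩
    · rintro (h | h)
      · have := hc.2.2 i ⟨h.1, hi.2⟩
        exact Or.inl ⟨this.1.1, e ▸ h.2.1, (this.2.1 b h.2.1).2 h.2.2⟩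
      · exact Or.inr ⟨h.1, et ▸ h.2⟩
    · intro h
      have := hc'.2.2 i ⟨h.1, hi.2⟩
      exact ⟨this.1.1, e ▸ h.2.1, (this.2.2 b h.2.1).2 h.2.2⟩
    · intro h
      have := hc.2.2 i ⟨h.1, hi.2⟩
      exact ⟨this.1.1, e ▸ h.2.1, (this.2.2 b h.2.1).2 h.2.2⟩

open Classical in
noncomputable def extd (Z : Set I) (τ : Z → Bool) : I → Bool :=
  fun j => if h : j ∈ Z then τ ⟨j, h⟩ else false

omit [LinearOrder I] [WellFoundedLT I] in
theorem extd_eq (Z : Set I) (t : I → Bool) : ∀ j ∈ Z, t j = extd Z (fun j => t j.1) j :=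
  fun j hj => by simp [extd, hj]

omit [LinearOrder I] [WellFoundedLT I] in
theorem Good.pow (G : Good κ K) {Z : Set I} (hZ : #Z < κ) : #(Z → Bool) < κ := by
  have := G.inacc.isStrongLimit.isStrongPrelimit hZ
  simpa using this

theorem Fam.step (G : Good κ K) {Z : Set I} (hZ : #Z < κ) (x : Fam κ N Z)
    (E : K → Set (Raw I K)) (hE : ∀ d, Down (E d))
    (hd : ∀ t, ∀ q ≤ x.F t, Cond κ N q → ∀ a, ∃ r ≤ q, Cond κ N r ∧ ∃ d, a < d ∧ r ∈ E d) :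
    ∃ (Z' : Set I) (y : Fam κ N Z') (b : K), #Z' < κ ∧ (∀ t, y.F t ≤ x.F t) ∧
      (∀ t, (x.F t).u ⊆ Z') ∧ (∀ t, Z' ⊆ (y.F t).u) ∧
      (∀ t, (x.F t).h < b ∧ b ≤ (y.F t).h) ∧ (∀ t, ∀ i ∈ Z', (b ∈ (y.F t).a i ↔ t i = true)) ∧
      ∀ t, ∃ d, (x.F t).h < d ∧ d ≤ (y.F t).h ∧ y.F t ∈ E d := by
  have hκ := G.reg.aleph0_le
  let Z' : Set I := Z ∪ ⋃ τ : Z → Bool, (x.F (extd Z τ)).u
  have hZ' : #Z' < κ := (mk_union_le _ _).trans_lt (add_lt_of_lt hκ hZ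
    ((card_iUnion_lt_iff_forall_of_isRegular G.reg (G.pow hZ)).2 fun τ => (x.cond _).1.1))
  have hu : ∀ t, (x.F t).u ⊆ Z' := fun t i hi =>
    Or.inr (mem_iUnion.2 ⟨fun j => t j.1,
      ((x.coh.le fun j hj => (extd_eq Z t j hj).symm).2.2 i hi).1⟩)
  obtain ⟨b, hb⟩ := G.succ (x.F fun _ => false).h
  have hb' : ∀ t, (x.F t).h < b := fun t => (x.coh.h_eq t _).trans_lt hb
  let y0 : Fam κ N Z' := ⟨fun t => pad (x.F t) b Z' t,
    fun t => pad_cond hκ (hb' t) hZ' t (x.cond t), pad_coh subset_union_left x.coh hu b⟩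
  have hy0 : ∀ t, y0.F t ≤ x.F t := fun t => pad_le (hb' t) _ _
  obtain ⟨y, hy, h⟩ := baire' hκ (dirClosed_Fam G Z') (G.pow hZ')
    (fun τ => {y | ∃ d, b < d ∧ d ≤ (y.F (extd Z' τ)).h ∧ y.F (extd Z' τ) ∈ E d})
    (fun τ y hy y' hy' => by
      obtain ⟨d, h1, h2, h3⟩ := hy
      exact ⟨d, h1, h2.trans (hy' _).1, hE d _ h3 _ (hy' _)⟩) y0
    (fun τ y hy => by
      obtain ⟨r, hr, hrc, d, h1, h2⟩ := hd (extd Z' τ) _ ((hy _).trans (hy0 _)) (y.cond _) b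
      obtain ⟨g, hg⟩ := G.succ (max d r.h)
      have hg' : r.h < g := (le_max_right _ _).trans_lt hg
      have h3 := pad_le hg' (∅ : Set I) fun _ => false
      obtain ⟨y', hy', h4⟩ := y.dense hκ (extd Z' τ)
        (pad_cond hκ hg' (by simpa using G.reg.pos) _ hrc) (h3.trans hr)
      exact ⟨y', hy', d, h1, ((le_max_left _ _).trans hg.le).trans h4.1,
        hE d _ h2 _ (h4.trans h3)⟩)
  refine ⟨Z', y, b, hZ', fun t => (hy t).trans (hy0 t), hu,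
    fun t i hi => ((hy t).2.2 i (Or.inr hi)).1, fun t => ⟨hb' t, (hy t).1⟩, fun t i hi => ?_,
    fun t => ?_⟩
  · exact (((hy t).2.2 i (Or.inr hi)).2.1 b le_rfl).trans (pad_mem_a (hb' t) _ _ _)
  · obtain ⟨d, h1, h2, h3⟩ := h fun j => t j.1
    have h4 := y.coh.le (extd_eq Z' t)
    exact ⟨d, (hb' t).trans h1, h2.trans h4.1, hE d _ h3 _ h4⟩

end

end Pool.Agent.H574Z.Dia
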