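import Mathlib
import Pool.Agent.H574Z.Dia.Stat

namespace Pool.Agent.H574Z.Dia

open Cardinal Set Pool.Agent.Helper669.Forcing Pool.Agent.Helper669.K

section

variable {I K : Type} [LinearOrder K] [LinearOrder I] [WellFoundedLT I]
  {κ : Cardinal.{0}} {N : I → K → K → Set (Raw I K)}

structure Stt (κ : Cardinal.{0}) (N : I → K → K → Set (Raw I K))
    (F : ℕ → (I → Bool) → Raw I K) (α : K) where
  q : Raw I K
  t : I → Bool
  B : Set I
  cond : Cond κ N q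
  low : IsLowerSet B
  sub : q.u ⊆ B
  ha : α ≤ q.h
  hs : α ∈ q.s
  le : ∀ n, q ≤ (F n t).res B

instance (F : ℕ → (I → Bool) → Raw I K) (α : K) : Preorder (Stt κ N F α) where
  le y x := y.q ≤ x.q ∧ x.B ⊆ y.B ∧ ∀ j ∈ x.B, y.t j = x.t j
  le_refl _ := ⟨le_rfl, subset_rfl, fun _ _ => rfl⟩
  le_trans _ _ _ h h' := ⟨h.1.trans h'.1, h'.2.1.trans h.2.1,
    fun j hj => (h.2.2 j (h'.2.1 hj)).trans (h'.2.2 j hj)⟩

theorem dirClosed_Stt (G : Good κ K) {Z : ℕ → Set I} {F : ℕ → (I → Bool) → Raw I K}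
    (coh : ∀ n, Coh (Z n) (F n)) (α : K) : DirClosed κ (Stt κ N F α) := by
  classical
  intro D hD hne hd
  obtain ⟨g, hg⟩ := G.bdd (range fun x : D => x.1.q.h) (mk_range_le.trans_lt hD)
  have hg' : ∀ x : D, x.1.q.h ≤ g := fun x => (hg _ ⟨x, rfl⟩).le
  have hd' : ∀ x y : D, ∃ z : D, z.1.q ≤ x.1.q ∧ z.1.q ≤ y.1.q := fun x y => by
    obtain ⟨z, hz, h⟩ := hd x.1 x.2 y.1 y.2
    exact ⟨⟨z, hz⟩, h.1.1, h.2.1⟩
  have hl : ∀ x : D, lim (fun x : D => x.1.q) g ≤ x.1.q :=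
    lim_le (F := fun x : D => x.1.q) hg' hd'
  let t : I → Bool := fun j => if h : ∃ x : D, j ∈ x.1.B then h.choose.1.t j else false
  have ht : ∀ x : D, ∀ j ∈ x.1.B, t j = x.1.t j := by
    intro x j hj
    have hex : ∃ x : D, j ∈ x.1.B := ⟨x, hj⟩
    obtain ⟨z, _, h1, h2⟩ := hd x.1 x.2 hex.choose.1 hex.choose.2
    simp only [t, dif_pos hex]
    exact (h2.2.2 j hex.choose_spec).symm.trans (h1.2.2 j hj)
  obtain ⟨x0, hx0⟩ := hne
  have hle : ∀ n, ∀ x : D, lim (fun x : D => x.1.q) g ≤ (F n t).res x.1.B := fun n x =>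
    (hl x).trans ((x.1.le n).trans (coh n _ _ _ x.1.low fun j _ hj => (ht x j hj).symm))
  refine ⟨⟨lim (fun x : D => x.1.q) g, t, ⋃ x : D, x.1.B,
    lim_cond G.reg hD hg' hd' fun x => x.1.cond, isLowerSet_iUnion fun x => x.1.low,
    iUnion_mono fun x => x.1.sub, x0.ha.trans (hg' ⟨x0, hx0⟩),
    ((hl ⟨x0, hx0⟩).2.1 α x0.ha).2 x0.hs, fun n => ⟨(hle n ⟨x0, hx0⟩).1, (hle n ⟨x0, hx0⟩).2.1,
      fun i hi => ?_⟩⟩, fun a ha => ⟨hl ⟨a, ha⟩, subset_iUnion (fun x : D => x.1.B) ⟨a, ha⟩,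
        ht ⟨a, ha⟩⟩⟩
  obtain ⟨x, hx⟩ := mem_iUnion.1 hi.2
  exact (hle n x).2.2 i ⟨hi.1, hx⟩

theorem decide_bit {i : I} {q : Raw I K} (hq : Cond κ N q) (hu : q.u ⊆ Iio i) (d b : K) :
    ∃ (q' : Raw I K) (e : Bool), q' ≤ q ∧ Cond κ N q' ∧ q'.u ⊆ Iio i ∧
      (e = true → Neg κ N i d b q') ∧ (e = false → Pos N i d b q') := by
  by_cases h : Neg κ N i d b q
  · exact ⟨q, true, le_rfl, hq, hu, fun _ => h, fun h => by simp at h⟩
  · simp only [Neg, not_forall, not_not] at h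
    obtain ⟨q', h1, h2, h3, r, hr, h4⟩ := h
    exact ⟨q', false, h1.trans (Raw.res_le le_rfl hu), h2, h3, fun h => by simp at h,
      fun _ => ⟨r, hr, (Raw.res_le le_rfl h3).trans h4⟩⟩

theorem fusion [WellFoundedLT K] (G : Good κ K) (Z : ℕ → Set I) (F : ℕ → (I → Bool) → Raw I K)
    (β : ℕ → K) (hZ : ∀ n, #(Z n) < κ) (cond : ∀ n t, Cond κ N (F n t))
    (coh : ∀ n, Coh (Z n) (F n)) (mono : ∀ n t, F (n + 1) t ≤ F n t)
    (sub : ∀ n t, (F n t).u ⊆ Z (n + 1)) (sup : ∀ n t, Z (n + 1) ⊆ (F (n + 1) t).u)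
    (hβ : ∀ n t, (F n t).h < β n ∧ β n ≤ (F (n + 1) t).h)
    (spl : ∀ n t, ∀ i ∈ Z (n + 1), (β n ∈ (F (n + 1) t).a i ↔ t i = true)) :
    ∃ q t α, Cond κ N q ∧ α ≤ q.h ∧ α ∈ q.s ∧ (∀ n, q ≤ F n t) ∧ (∀ n, (F n t).h < α) ∧
      ∀ b < α, ∃ n, b < (F n t).h := by
  classical
  have hκ := G.reg.aleph0_le
  have hκ' : ℵ₀ < κ := G.inacc.aleph0_lt
  let t0 : I → Bool := fun _ => false
  have anti : ∀ t, Antitone fun n => F n t := fun t => antitone_nat_of_succ_le fun n => mono n t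
  have hlt : ∀ n t, (F n t).h < (F (n + 1) t).h := fun n t => (hβ n t).1.trans_le (hβ n t).2
  obtain ⟨α, hα0, hα1⟩ := (wellFounded_lt (α := K)).has_min {g | ∀ n, (F n t0).h < g} (by
    obtain ⟨g, hg⟩ := G.bdd (range fun n => (F n t0).h)
      (mk_range_le.trans_lt (by simpa using hκ'))
    exact ⟨g, fun n => hg _ ⟨n, rfl⟩⟩)
  have hα : ∀ n t, (F n t).h < α := fun n t => ((coh n).h_eq t t0).trans_lt (hα0 n)
  have hα' : ∀ t, ∀ b < α, ∃ n, b < (F n t).h := by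
    intro t b hb
    by_contra hcon
    push Not at hcon
    exact hα1 b (fun n => ((coh n).h_eq t0 t).trans_lt ((hlt n t).trans_le (hcon _))) hb
  have dir : ∀ t x y, ∃ z, F z t ≤ F x t ∧ F z t ≤ F y t := fun t x y =>
    ⟨max x y, anti t (le_max_left _ _), anti t (le_max_right _ _)⟩
  have hl : ∀ t n, lim (fun n => F n t) α ≤ F n t := fun t =>
    lim_le (F := fun n => F n t) (fun n => (hα n t).le) (dir t)
  let U : Set I := ⋃ n, Z (n + 1)
  have hU : #U < κ :=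
    (card_iUnion_lt_iff_forall_of_isRegular G.reg (by simpa using hκ')).2 fun n => hZ _
  have hFU : ∀ n t, (F n t).u ⊆ U := fun n t i hi => mem_iUnion.2 ⟨n, sub n t hi⟩
  let x0 : Stt κ N F α := ⟨⟨α, insert α (lim (fun n => F n t0) α).s, ∅, fun _ => ∅, fun _ => ∅⟩,
    t0, ∅, cond_of (by simpa using G.reg.pos) (by
      rintro b _ (rfl | ⟨n, h1, h2⟩)
      · exact ⟨fun n => (F n t0).h, fun n => hα n t0, hα' t0⟩
      · exact (cond n t0).1.2.1 b h1 h2) fun i hi => hi.elim, isLowerSet_empty, subset_rfl,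
    le_rfl, mem_insert _ _, fun n => ⟨(hα n t0).le, fun b hb => ⟨fun h => h.elim
      (fun h => absurd (h ▸ hb) (not_le.2 (hα n t0))) fun h => ((hl t0 n).2.1 b hb).1 h,
      fun h => Or.inr (((hl t0 n).2.1 b hb).2 h)⟩, fun i hi => hi.2.elim⟩⟩
  obtain ⟨x, _, hx⟩ := baire hκ (dirClosed_Stt (N := N) G coh α) hU
    (fun i => {x | i.1 ∈ x.B}) (fun i x hx y hy => hy.2.1 hx) x0 (by
      intro i x _ hx
      by_cases hi : i.1 ∈ x.B
      · exact ⟨x, le_rfl, hi⟩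
      have hB : x.B ⊆ Iio i.1 := fun j hj => not_le.1 fun h => hi (x.low h hj)
      obtain ⟨n0, hn0⟩ := mem_iUnion.1 i.2
      obtain ⟨q', e, h1, h2, h3, h4, h5⟩ := decide_bit x.cond (x.sub.trans hB) α (β n0)
      let t' := Function.update x.t i.1 e
      have ht' : ∀ j < i.1, x.t j = t' j := fun j hj => by
        simp [t', Function.update_of_ne hj.ne]
      have h6 : ∀ n, q' ≤ (F n t').res (Iio i.1) := fun n => by
        refine (h1.trans ?_).trans (coh n x.t t' _ (isLowerSet_Iio _) fun j _ hj => ht' j hj)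
        have := x.le n
        exact ⟨this.1, this.2.1, fun j hj =>
          this.2.2 j ⟨hj.1, hx ⟨j, hFU n _ hj.1⟩ hj.2⟩⟩
      let L := (lim (fun n => F n t') α).res {i.1}
      let q'' := glue q' L (Iio i.1)
      have h7 : q'' ≤ q' := (glue_le_left _ _ _).trans (Raw.res_le le_rfl h3)
      have hia : ∀ b, b ∈ q''.a i.1 ↔ b ≤ α ∧ b ∈ (lim (fun n => F n t') α).a i.1 := fun b => by
        simp [q'', glue, L, Raw.res, lim]
      have hic : ∀ b, b ∈ q''.c i.1 ↔ b ≤ α ∧ b ∈ (lim (fun n => F n t') α).c i.1 := fun b => by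
        simp [q'', glue, L, Raw.res, lim]
      have h8 : ∀ n, q'' ≤ (F n t').res (Iic i.1) := fun n => by
        have := h7.trans (h6 n)
        refine ⟨this.1, this.2.1, fun j hj => ?_⟩
        rcases lt_or_eq_of_le (mem_Iic.1 hj.2) with h | h
        · exact this.2.2 j ⟨hj.1, h⟩
        · have hj1 := hj.1
          rw [h] at hj1 ⊢
          have h9 := (hl t' n).2.2 i.1 hj1
          refine ⟨Or.inr ⟨⟨h9.1, rfl⟩, lt_irrefl _⟩, fun b hb => ?_, fun b hb => ?_⟩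
          · rw [hia]
            exact ⟨fun h => (h9.2.1 b hb).1 h.2,
              fun h => ⟨hb.trans (hα n t').le, (h9.2.1 b hb).2 h⟩⟩
          · rw [hic]
            exact ⟨fun h => (h9.2.2 b hb).1 h.2,
              fun h => ⟨hb.trans (hα n t').le, (h9.2.2 b hb).2 h⟩⟩
      have hu'' : q''.u ⊆ insert i.1 q'.u := fun j hj =>
        hj.elim (fun h => Or.inr h.1) fun h => Or.inl h.1.2
      have hi0 : i.1 ∈ (F (n0 + 1) t').u := sup n0 t' hn0
      have hc : Cond κ N q'' := by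
        refine cond_of ((mk_le_mk_of_subset hu'').trans_lt ((mk_insert_le).trans_lt
          (add_lt_of_lt hκ h2.1.1 (one_lt_aleph0.trans_le hκ)))) h2.1.2.1 fun j hj d hd => ?_
        rcases hu'' hj with rfl | hj'
        · rcases lt_trichotomy d α with h | rfl | h
          · obtain ⟨n, hn⟩ := hα' t' d h
            have h9 : F (max n (n0 + 1)) t' ≤ F n t' := anti t' (le_max_left _ _)
            have h10 : F (max n (n0 + 1)) t' ≤ F (n0 + 1) t' := anti t' (le_max_right _ _)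
            exact Or.inl ⟨F (max n (n0 + 1)) t', cond _ _, (h10.2.2 _ hi0).1, hn.le.trans h9.1,
              Raw.res_of_le_res (h8 _)⟩
          · refine Or.inr ⟨fun _ => (hic _).2 ⟨le_rfl, Or.inr fun n => hα n t'⟩, fun _ _ =>
              ⟨β n0, (hβ n0 t').2.trans_lt (hα _ _), ?_⟩⟩
            have h9 : β n0 ∈ q''.a i.1 ↔ e = true := by
              rw [((h8 (n0 + 1)).2.2 i.1 ⟨hi0, le_rfl⟩).2.1 _ (hβ n0 t').2]
              refine (spl n0 t' i.1 hn0).trans ?_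
              simp [t']
            cases e
            · exact Or.inl ⟨by simpa using h9, (h5 rfl).mono (Raw.res_mono h7 _)⟩
            · exact Or.inr ⟨h9.2 rfl, (h4 rfl).mono (Raw.res_mono h7 _)⟩
          · refine Or.inr ⟨fun hacc => ?_, fun hc => absurd ((hic _).1 hc).1 (not_le.2 h)⟩
            obtain ⟨e', he, h9, _⟩ := hacc.2 α h
            exact absurd ((hic _).1 he).1 (not_le.2 h9)
        · exact Or.inl ⟨q', h2, hj', hd, Raw.res_mono h7 _⟩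
      refine ⟨⟨q'', t', Iic i.1, hc, isLowerSet_Iic _, fun j hj => ?_, x.ha.trans (h7.trans h1).1,
        ((h7.trans h1).2.1 α x.ha).2 x.hs, h8⟩, ⟨h7.trans h1, hB.trans Iio_subset_Iic_self,
          fun j hj => (ht' j (hB hj)).symm⟩, le_rfl⟩
      rcases hu'' hj with rfl | h
      · exact le_rfl
      · exact (h3 h).le)
  exact ⟨x.q, x.t, α, x.cond, x.ha, x.hs, fun n => (x.le n).trans (Raw.res_le le_rfl
    fun j hj => hx ⟨j, hFU n _ hj⟩), fun n => hα n _, hα' _⟩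

def SName (κ : Cardinal.{0}) (N : I → K → K → Set (Raw I K)) : K → Set (PP κ N) :=
  fun b => {p | b ≤ p.1.h ∧ b ∈ p.1.s}

theorem sname_cof (p : PP κ N) :
    p ∈ fall fun a => fimp (meets (SName κ N a)) (fground (CofOmega a)) := by
  intro a
  refine mem_fimp.2 fun q _ hq => ⟨q, le_rfl, ?_⟩
  obtain ⟨_, _, s, hs, _⟩ := hq q le_rfl
  exact s.2.1.2.1 a hs.1 hs.2

theorem sname_stat [WellFoundedLT K] (G : Good κ K) (p : PP κ N) :
    p ∈ Stat fun a => meets (SName κ N a) := by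
  intro C
  refine mem_fimp.2 fun p0 _ hC => ?_
  let E : K → Set (Raw I K) := fun d =>
    {r | ∀ r' : PP κ N, r'.1 ≤ r → r' ∈ meets (C d)}
  have hE : ∀ d, Down (E d) := fun d r hr r' h r'' h' => hr r'' (h'.trans h)
  let St : Type := {x : Σ Z : Set I, Fam κ N Z // #x.1 < κ ∧ ∀ t, x.2.F t ≤ p0.1}
  have step : ∀ x : St, ∃ (y : St) (b : K), (∀ t, y.1.2.F t ≤ x.1.2.F t) ∧
      (∀ t, (x.1.2.F t).u ⊆ y.1.1) ∧ (∀ t, y.1.1 ⊆ (y.1.2.F t).u) ∧
      (∀ t, (x.1.2.F t).h < b ∧ b ≤ (y.1.2.F t).h) ∧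
      (∀ t, ∀ i ∈ y.1.1, (b ∈ (y.1.2.F t).a i ↔ t i = true)) ∧
      ∀ t, ∃ d, (x.1.2.F t).h < d ∧ d ≤ (y.1.2.F t).h ∧ y.1.2.F t ∈ E d := by
    intro x
    obtain ⟨Z', y, b, h1, h2, h⟩ := x.1.2.step G x.2.1 E hE fun t q hq hqc a => by
      obtain ⟨r, hr, d, h1, h2⟩ := Club.next
        (down_Club C _ hC ⟨q, hqc⟩ (hq.trans (x.2.2 t))) a
      exact ⟨r.1, hr, r.2, d, h1, fun r' hr' => down_meets _ _ h2 _ hr'⟩
    exact ⟨⟨⟨Z', y⟩, h1, fun t => (h2 t).trans (x.2.2 t)⟩, b, h2, h⟩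
  choose nx bt hs using step
  let x0 : St := ⟨⟨∅, fun _ => p0.1, fun _ => p0.2, fun _ _ _ _ _ => le_rfl⟩,
    by simpa using G.reg.pos, fun _ => le_rfl⟩
  let f : ℕ → St := fun n => nx^[n] x0
  have hf : ∀ n, f (n + 1) = nx (f n) := fun n => Function.iterate_succ_apply' _ _ _
  obtain ⟨q, t, α, h1, h2, h3, h4, h5, h6⟩ := fusion G (fun n => (f n).1.1)
    (fun n => (f n).1.2.F) (fun n => bt (f n)) (fun n => (f n).2.1) (fun n => (f n).1.2.cond)
    (fun n => (f n).1.2.coh) (fun n => by rw [hf]; exact (hs _).1)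
    (fun n => by rw [hf]; exact (hs _).2.1) (fun n => by rw [hf]; exact (hs _).2.2.1)
    (fun n => by rw [hf]; exact (hs _).2.2.2.1) (fun n => by rw [hf]; exact (hs _).2.2.2.2.1)
  have hq : (⟨q, h1⟩ : PP κ N) ≤ p0 := (h4 0).trans ((f 0).2.2 t)
  refine ⟨⟨q, h1⟩, hq, mem_fex.2 fun r hr => ⟨r, le_rfl, α, down_meets _ _ ?_ _ hr,
    meets_of_le (s := ⟨q, h1⟩) ⟨h2, h3⟩ hr⟩⟩
  refine Club.closed (down_Club C _ hC _ hq) ⟨_, h5 0⟩ fun b hb => ?_
  obtain ⟨n, hn⟩ := h6 b hb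
  obtain ⟨d, h7, h8, h9⟩ := (hs (f n)).2.2.2.2.2 t
  rw [← hf] at h8 h9
  exact ⟨d, hn.trans h7, h8.trans_lt (h5 _), h9 _ (h4 _)⟩

end

end Pool.Agent.H574Z.Dia
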