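import Mathlib
import Pool.Agent.H574Z.Dia.Fusion

namespace Pool.Agent.H574Z.Dia

open Cardinal Set Pool.Agent.Helper669.Forcing Pool.Agent.Helper669.K

section

variable {I K : Type} [LinearOrder K]

abbrev Code (K : Type) [LinearOrder K] (Z : Set I) : Type :=
  Σ h : K, Set (Iic h) × Set Z × Set (Z × Iic h) × Set (Z × Iic h)

def Matches {Z : Set I} (p : Raw I K) (e : Code K Z) : Prop :=
  p.h = e.1 ∧ (∀ b : Iic e.1, (b.1 ∈ p.s ↔ b ∈ e.2.1)) ∧ (∀ i : Z, (i.1 ∈ p.u ↔ i ∈ e.2.2.1)) ∧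
    (∀ x : Z × Iic e.1, (x.2.1 ∈ p.a x.1.1 ↔ x ∈ e.2.2.2.1)) ∧
    ∀ x : Z × Iic e.1, (x.2.1 ∈ p.c x.1.1 ↔ x ∈ e.2.2.2.2)

theorem exists_matches (Z : Set I) (p : Raw I K) : ∃ e : Code K Z, Matches p e :=
  ⟨⟨p.h, {b | b.1 ∈ p.s}, {i | i.1 ∈ p.u}, {x | x.2.1 ∈ p.a x.1.1}, {x | x.2.1 ∈ p.c x.1.1}⟩,
    rfl, fun _ => Iff.rfl, fun _ => Iff.rfl, fun _ => Iff.rfl, fun _ => Iff.rfl⟩

theorem Matches.le {Z : Set I} {p r : Raw I K} {e : Code K Z} (hr : Matches r e)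
    (hp : Matches p e) : r.res Z ≤ p.res Z := by
  have hb : ∀ b ≤ p.h, b ∈ Iic e.1 := fun b h => hp.1 ▸ h
  refine ⟨(hp.1.trans hr.1.symm).le, fun b h =>
    (hr.2.1 ⟨b, hb b h⟩).trans (hp.2.1 ⟨b, hb b h⟩).symm, fun i hi =>
    ⟨⟨(hr.2.2.1 ⟨i, hi.2⟩).2 ((hp.2.2.1 ⟨i, hi.2⟩).1 hi.1), hi.2⟩, fun b h =>
      (hr.2.2.2.1 (⟨i, hi.2⟩, ⟨b, hb b h⟩)).trans (hp.2.2.2.1 (⟨i, hi.2⟩, ⟨b, hb b h⟩)).symm,
      fun b h =>
      (hr.2.2.2.2 (⟨i, hi.2⟩, ⟨b, hb b h⟩)).trans (hp.2.2.2.2 (⟨i, hi.2⟩, ⟨b, hb b h⟩)).symm⟩⟩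

theorem mk_code_le {κ : Cardinal.{0}} (G : Good κ K) {Z : Set I} (hZ : #Z < κ) :
    #(Code K Z) ≤ κ := by
  have hκ := G.reg.aleph0_le
  have hs : ∀ X : Type, #X < κ → #(Set X) < κ := fun X hX => by
    simpa using G.inacc.isStrongLimit.isStrongPrelimit hX
  have hp : ∀ X Y : Type, #X < κ → #Y < κ → #(X × Y) < κ := fun X Y hX hY => by
    simpa using mul_lt_of_lt hκ hX hY
  rw [mk_sigma]
  refine (sum_le_sum _ (fun _ => κ) fun h => ?_).trans ?_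
  · exact (hp _ _ (hs _ (G.seg h)) (hp _ _ (hs _ hZ) (hp _ _ (hs _ (hp _ _ hZ (G.seg h)))
      (hs _ (hp _ _ hZ (G.seg h)))))).le
  · rw [sum_const']
    exact (mul_le_mul' G.card le_rfl).trans (mul_eq_self hκ).le

variable [LinearOrder I] [WellFoundedLT I] {κ : Cardinal.{0}} {N : I → K → K → Set (Raw I K)}

theorem capture [WellFoundedLT K] (G : Good κ K) (hK : κ ≤ #K) (D : K → K → Set (PP κ N)) :
    ∃ J : Set I, #J ≤ κ ∧ ∀ d b, ∀ p ∈ D d b, ∃ r ∈ D d b, r.1.u ⊆ J ∧ ∃ q, q ≤ p ∧ q ≤ r := by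
  classical
  have hκ := G.reg.aleph0_le
  have h1 : ∀ Z : Set I, ∃ f : K → Set I, #Z < κ → (∀ k, #(f k) < κ) ∧
      ∀ d b (e : Code K Z), (∃ p ∈ D d b, Matches p.1 e) →
        ∃ r ∈ D d b, Matches r.1 e ∧ ∃ k, r.1.u ⊆ f k := by
    intro Z
    by_cases hZ : #Z < κ
    · have : #(K × K × Code K Z) ≤ #K := by
        simp only [mk_prod, lift_id]
        refine le_trans ?_ hK
        exact (mul_le_mul' G.card ((mul_le_mul' G.card (mk_code_le G hZ)).trans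
          (mul_eq_self hκ).le)).trans (mul_eq_self hκ).le
      obtain ⟨j⟩ := this
      let w : K × K × Code K Z → Set I := fun x =>
        if h : ∃ p ∈ D x.1 x.2.1, Matches p.1 x.2.2 then h.choose.1.u else ∅
      have hw : ∀ x, #(w x) < κ := fun x => by
        simp only [w]
        split_ifs with h
        · exact h.choose.2.1.1
        · simpa using G.reg.pos
      refine ⟨fun k => if h : ∃ x, j x = k then w h.choose else ∅, fun _ => ⟨fun k => ?_,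
        fun d b e h => ⟨h.choose, h.choose_spec.1, h.choose_spec.2, j (d, b, e), ?_⟩⟩⟩
      · beta_reduce
        split_ifs with h
        · exact hw _
        · simpa using G.reg.pos
      · have hx : ∃ x, j x = j (d, b, e) := ⟨_, rfl⟩
        have e1 : hx.choose = (d, b, e) := j.injective hx.choose_spec
        simp only [dif_pos hx, e1, w, dif_pos h]
        exact subset_rfl
    · exact ⟨fun _ => ∅, fun h => absurd h hZ⟩
  choose f hf using h1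
  obtain ⟨W, hW1, hW2, hW3⟩ := hull G.reg G.seg f fun Z hZ => (hf Z hZ).1
  refine ⟨⋃ i, W i, ?_, fun d b p hp => ?_⟩
  · refine (mk_iUnion_le_sum_mk).trans ((sum_le_sum _ (fun _ => κ) fun i => (hW1 i).le).trans ?_)
    rw [sum_const']
    exact (mul_le_mul' G.card le_rfl).trans (mul_eq_self hκ).le
  · have h2 : ∀ x : (p.1.u ∩ ⋃ i, W i : Set I), ∃ i, x.1 ∈ W i := fun x => mem_iUnion.1 x.2.2
    choose g hg using h2
    obtain ⟨j, hj⟩ := G.bdd (range g) (mk_range_le.trans_lt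
      ((mk_le_mk_of_subset inter_subset_left).trans_lt p.2.1.1))
    obtain ⟨e, he⟩ := exists_matches (W j) p.1
    obtain ⟨r, hr, hre, k, hk⟩ := (hf _ (hW1 j)).2 d b e ⟨p, hp, he⟩
    obtain ⟨m, hm⟩ := G.succ (max j k)
    have hrJ : r.1.u ⊆ ⋃ i, W i := fun i hi => mem_iUnion.2 ⟨m, hW3 m j k
      ((le_max_left _ _).trans_lt hm) ((le_max_right _ _).trans_lt hm) (hk hi)⟩
    have h3 := hre.le he
    have h4 : r.1.res r.1.u ≤ p.1.res r.1.u := ⟨h3.1, h3.2.1, fun i hi =>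
      ⟨⟨hi.2, hi.2⟩, (h3.2.2 i ⟨hi.1, hW2 j _ (hj _ ⟨⟨i, hi.1, hrJ hi.2⟩, rfl⟩)
        (hg ⟨i, hi.1, hrJ hi.2⟩)⟩).2⟩⟩
    exact ⟨r, hr, hrJ, ⟨glue r.1 p.1 r.1.u, glue_cond hκ h4 r.2 p.2 fun _ _ _ h _ => h⟩,
      glue_le_right h4, (glue_le_left _ _ _).trans (Raw.res_le le_rfl subset_rfl)⟩

theorem exists_supp (G : Good κ K) (p : PP κ N) (i : I) (a : K) :
    ∃ q ≤ p, i ∈ q.1.u ∧ a ≤ q.1.h := by
  obtain ⟨g, hg⟩ := G.succ (max a p.1.h)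
  have hg' : p.1.h < g := (le_max_right _ _).trans_lt hg
  exact ⟨⟨pad p.1 g {i} fun _ => false, pad_cond G.reg.aleph0_le hg'
    (by simpa using one_lt_aleph0.trans_le G.reg.aleph0_le) _ p.2⟩, pad_le hg' _ _,
    Or.inr rfl, (le_max_left _ _).trans hg.le⟩

def AName (κ : Cardinal.{0}) (N : I → K → K → Set (Raw I K)) (i : I) : K → Set (PP κ N) :=
  fun b => {p | i ∈ p.1.u ∧ b ≤ p.1.h ∧ b ∈ p.1.a i}

def CName (κ : Cardinal.{0}) (N : I → K → K → Set (Raw I K)) (i : I) : K → Set (PP κ N) :=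
  fun b => {p | i ∈ p.1.u ∧ b ≤ p.1.h ∧ b ∈ p.1.c i}

theorem of_meets_a {i : I} {b : K} {p : PP κ N} (h : p ∈ meets (AName κ N i b))
    (hi : i ∈ p.1.u) (hb : b ≤ p.1.h) : b ∈ p.1.a i := by
  obtain ⟨r, hr, s, hs, h'⟩ := h p le_rfl
  exact ((hr.2.2 i hi).2.1 b hb).1 (((h'.2.2 i hs.1).2.1 b hs.2.1).2 hs.2.2)

theorem of_meets_c {i : I} {b : K} {p : PP κ N} (h : p ∈ meets (CName κ N i b))
    (hi : i ∈ p.1.u) (hb : b ≤ p.1.h) : b ∈ p.1.c i := by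
  obtain ⟨r, hr, s, hs, h'⟩ := h p le_rfl
  exact ((hr.2.2 i hi).2.2 b hb).1 (((h'.2.2 i hs.1).2.2 b hs.2.1).2 hs.2.2)

theorem of_meets_s {b : K} {p : PP κ N} (h : p ∈ meets (SName κ N b))
    (hb : b ≤ p.1.h) : b ∈ p.1.s := by
  obtain ⟨r, hr, s, hs, h'⟩ := h p le_rfl
  exact (hr.2.1 b hb).1 ((h'.2.1 b hs.1).2 hs.2)

theorem cname_club (G : Good κ K) (i : I) (p : PP κ N) : p ∈ Club (CName κ N i) := by
  refine ⟨fun a => mem_fex.2 fun q _ => ?_, fun a => mem_fimp.2 fun q _ hq => ?_⟩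
  · obtain ⟨r, hr, h1, h2⟩ := exists_supp G q i a
    obtain ⟨g, hg⟩ := G.succ r.1.h
    have hd : ∀ x y : Unit, ∃ z : Unit, (fun _ : Unit => r.1) z ≤ (fun _ : Unit => r.1) x ∧
      (fun _ : Unit => r.1) z ≤ (fun _ : Unit => r.1) y := fun _ _ => ⟨(), le_rfl, le_rfl⟩
    have h3 := lim_le (F := fun _ : Unit => r.1) (fun _ => hg.le) hd ()
    refine ⟨⟨lim (fun _ : Unit => r.1) g, lim_cond G.reg
      (by simpa using one_lt_aleph0.trans_le G.reg.aleph0_le) (fun _ => hg.le) hd fun _ => r.2⟩,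
      le_trans (b := r) h3 hr, g, h2.trans_lt hg, meets_of_mem ⟨(h3.2.2 i h1).1, le_rfl,
        Or.inr fun _ => hg⟩⟩
  · obtain ⟨r, hr, h1, h2⟩ := exists_supp G q i a
    refine ⟨r, hr, meets_of_mem ⟨h1, h2, r.2.1.2.2 i h1 a h2 ⟨hq.1, fun b hb => ?_⟩⟩⟩
    obtain ⟨r', hr', c, h3, h4⟩ := mem_fex.1 (hq.2 b hb) r hr
    have hc : c ≤ r.1.h := h3.2.le.trans h2
    exact ⟨c, ((hr'.2.2 i h1).2.2 c hc).1 (of_meets_c h4 (hr'.2.2 i h1).1 (hc.trans hr'.1)),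
      h3.1, h3.2⟩

theorem not_diamond [WellFoundedLT K] (G : Good κ K) (hK : κ ≤ #K)
    (hN : ∀ J : Set I, #J ≤ κ → ∀ D : K → K → Set (Raw I K), ∃ i, (∀ j ∈ J, j < i) ∧
      (∀ d b, ∀ r ∈ D d b, r.u ⊆ J → r ∈ N i d b) ∧
      ∀ d b, ∀ r ∈ N i d b, ∃ r' ∈ D d b, r ≤ r') (p : PP κ N) :
    p ∈ fnot (Diamond (SName κ N)) := by
  intro p1 _ h1
  obtain ⟨p2, _, A, hA⟩ := mem_fex.1 h1 p1 le_rfl
  obtain ⟨J, hJ, hcap⟩ := capture G hK fun d b => meets (A d b)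
  obtain ⟨i, hi1, hi2, hi3⟩ := hN J hJ fun d b => Subtype.val '' meets (A d b)
  obtain ⟨p3, _, h3⟩ := mem_fimp.1 (hA (AName κ N i) (CName κ N i)) p2 le_rfl (cname_club G i p2)
  obtain ⟨p4, _, d, h4, h5, h6⟩ := mem_fex.1 h3 p3 le_rfl
  obtain ⟨q, hq, hiq, hdq⟩ := exists_supp G p4 i d
  obtain ⟨b, hb, h7⟩ := req_iff.1 (q.2.2 i hiq) d hdq
    (of_meets_c (down_meets _ _ h4 _ hq) hiq hdq) (of_meets_s (down_meets _ _ h5 _ hq) hdq)
  have hbq : b ≤ q.1.h := hb.le.trans hdq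
  rcases h7 with ⟨h8, r, hr, h9⟩ | ⟨h8, h9⟩
  · obtain ⟨_, ⟨r', hr', rfl⟩, h10⟩ := hi3 d b r hr
    have h11 : q ≤ r' := (Raw.le_res _ _).trans (h9.trans h10)
    obtain ⟨q', h12, h13⟩ := mem_fimp.1 (h6 b hb).1 q hq (down_meets _ _ hr' _ h11)
    exact h8 (((h12.2.2 i hiq).2.1 b hbq).1
      (of_meets_a h13 (h12.2.2 i hiq).1 (hbq.trans h12.1)))
  · obtain ⟨q', h12, h13⟩ := mem_fimp.1 (h6 b hb).2 q hq (meets_of_mem ⟨hiq, hbq, h8⟩)
    obtain ⟨r, hr, hrJ, q'', h14, h15⟩ := hcap d b q' h13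
    exact h9 (q''.1.res (Iio i)) (Raw.res_mono (h14.trans h12) _)
      (q''.2.res (isLowerSet_Iio i)) (fun _ h => h.2)
      ⟨r.1, hi2 d b r.1 ⟨r, hr, rfl⟩ hrJ, Raw.res_le h15 fun j hj => hi1 j (hrJ hj)⟩

end

inductive Co (K : Type) : Type
  | leaf : Co K
  | mk (ch : K → Co K) (nm : K → K → Set (Raw K K)) : Co K

inductive Co.Child {K : Type} : Co K → Co K → Prop
  | intro (ch : K → Co K) (nm : K → K → Set (Raw K K)) (k : K) : Co.Child (ch k) (Co.mk ch nm)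

theorem Co.wf (K : Type) : WellFounded (Co.Child (K := K)) := by
  refine ⟨fun x => ?_⟩
  induction x with
  | leaf => exact ⟨_, fun y h => by cases h⟩
  | mk ch nm ih => exact ⟨_, fun y h => by cases h; exact ih _⟩

def pull {I K : Type} (ch : K → I) (r : Raw I K) : Raw K K :=
  ⟨r.h, r.s, ch ⁻¹' r.u, fun k => r.a (ch k), fun k => r.c (ch k)⟩

def Co.name {K : Type} : Co K → K → K → Set (Raw (Co K) K)
  | .leaf => fun _ _ => ∅
  | .mk ch nm => fun d b => {r | r.u ⊆ range ch ∧ pull ch r ∈ nm d b}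

theorem exists_book {κ : Cardinal.{0}} (hκ : ℵ₀ ≤ κ) (K : Type) [LinearOrder K] (hK : κ ≤ #K) :
    ∃ (I : Type) (_ : LinearOrder I) (_ : WellFoundedLT I) (N : I → K → K → Set (Raw I K)),
      ∀ J : Set I, #J ≤ κ → ∀ D : K → K → Set (Raw I K), ∃ i, (∀ j ∈ J, j < i) ∧
      (∀ d b, ∀ r ∈ D d b, r.u ⊆ J → r ∈ N i d b) ∧
      ∀ d b, ∀ r ∈ N i d b, ∃ r' ∈ D d b, r ≤ r' := by
  classical
  have : IsWellFounded (Co K) Co.Child := ⟨Co.wf K⟩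
  obtain ⟨s, hs, hw⟩ := IsWellFounded.exists_well_order_ge (Co.Child (K := K))
  refine ⟨Co K, linearOrderOfSTO s, ⟨hw.wf⟩, Co.name, fun J hJ D => ?_⟩
  have h1 : #(insert Co.leaf J : Set (Co K)) ≤ #K :=
    (mk_insert_le).trans ((add_le_of_le hκ hJ (one_le_aleph0.trans hκ)).trans hK)
  obtain ⟨e⟩ := h1
  have : Nonempty (insert Co.leaf J : Set (Co K)) := ⟨⟨_, mem_insert _ _⟩⟩
  let ch : K → Co K := fun k => (Function.invFun e k).1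
  have hch : J ⊆ range ch := fun j hj => ⟨e ⟨j, Or.inr hj⟩, by
    simp only [ch, Function.leftInverse_invFun e.injective _]⟩
  refine ⟨Co.mk ch fun d b => pull ch '' {r | r ∈ D d b ∧ r.u ⊆ range ch}, fun j hj => ?_,
    fun d b r hr hu => ⟨hu.trans hch, r, ⟨hr, hu.trans hch⟩, rfl⟩, fun d b r hr => ?_⟩
  · obtain ⟨k, rfl⟩ := hch hj
    exact hs _ _ (Co.Child.intro _ _ _)
  · obtain ⟨_, r', ⟨h2, h3⟩, h4⟩ := hr
    simp only [pull, Raw.mk.injEq] at h4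
    refine ⟨r', h2, h4.1.le, fun b _ => by rw [h4.2.1], fun i hi => ?_⟩
    obtain ⟨k, rfl⟩ := h3 hi
    refine ⟨?_, fun b _ => by rw [congrFun h4.2.2.2.1 k], fun b _ => by rw [congrFun h4.2.2.2.2 k]⟩
    have : k ∈ ch ⁻¹' r'.u := hi
    rwa [h4.2.2.1] at this

theorem good_ord {κ : Cardinal.{0}} (hκ : κ.IsInaccessible) : Good κ κ.ord.ToType :=
  ⟨hκ, bdd_of_regular hκ.isRegular, mk_Iic_lt hκ.isRegular.aleph0_le, (mk_ord_toType κ).le⟩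

theorem exists_forcing {κ : Cardinal.{0}} (hκ : κ.IsInaccessible) :
    ∃ (P : Type) (_ : Preorder P) (S : κ.ord.ToType → Set P), Nonempty P ∧ DirClosed κ P ∧
      ∀ p : P, p ∈ StaysRegular P κ ∧
        p ∈ (fall fun a => fimp (meets (S a)) (fground (CofOmega a))) ∧
        p ∈ Stat (fun a => meets (S a)) ∧ p ∈ fnot (Diamond S) := by
  have G := good_ord hκ
  obtain ⟨I, _, _, N, hN⟩ := exists_book G.reg.aleph0_le κ.ord.ToType (mk_ord_toType κ).ge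
  obtain ⟨g, _⟩ := G.bdd ∅ (by simpa using G.reg.pos)
  exact ⟨PP κ N, inferInstance, SName κ N, ⟨⟨⟨g, ∅, ∅, fun _ => ∅, fun _ => ∅⟩,
    cond_of (by simpa using G.reg.pos) (fun _ _ h => h.elim) fun _ h => h.elim⟩⟩,
    dirClosed_PP G, fun p => ⟨staysRegular_of_dirClosed G.reg (dirClosed_PP G) p, sname_cof p,
      sname_stat G p, not_diamond G (mk_ord_toType κ).ge hN p⟩⟩

end Pool.Agent.H574Z.Dia
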